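import Pool.Agent.R193.CV.Fin

/-!
# Case A for MP_419f2f_co
-/

namespace Pool.Agent.R193.CV

variable {α : Type*}

/-- Position `p` of `w` carries the word `C[0, l)`. -/
def Occ (w C : ℤ → α) (l p : ℤ) : Prop := ∀ t, 0 ≤ t → t < l → w (p + t) = C t

theorem Occ.at {w C : ℤ → α} {l p : ℤ} (h : Occ w C l p) (x t : ℤ) (hx : x = p + t)
    (h0 : 0 ≤ t) (h1 : t < l) : w x = C t := by
  subst hx
  exact h t h0 h1

theorem Occ.per {w C : ℤ → α} {l p q : ℤ} (h1 : Occ w C l p) (h2 : Occ w C l q) :
    Per w p (q + l) (q - p) := by
  intro x hx hx'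
  rw [h1.at x (x - p) (by ring) (by omega) (by omega),
    h2.at (x + (q - p)) (x - p) (by ring) (by omega) (by omega)]

theorem Occ.perC {w C : ℤ → α} {l p q : ℤ} (h1 : Occ w C l p) (h2 : Occ w C l q)
    (hpq : p ≤ q) : Per C 0 l (q - p) := by
  intro x hx hx'
  rw [← h2.at (q + x) x rfl hx (by omega),
    ← h1.at (q + x) (x + (q - p)) (by ring) (by omega) (by omega)]

/-- The data coming from a rotation: `w` is covered by occurrences of `C[0, l)`,
there are occurrences at `i` and `i - l`, and `C` is not covered by a shorter prefix at three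
positions. -/
structure Good (w C : ℤ → α) (i l : ℤ) : Prop where
  pos : 0 < l
  self : Occ w C l i
  cut : Occ w C l (i - l)
  cov : ∀ x, ∃ p, p ≤ x ∧ x < p + l ∧ Occ w C l p
  sp : SP3 C l

theorem Good.gap {w C : ℤ → α} {i l p q : ℤ} (h : Good w C i l) (hp : Occ w C l p)
    (hq : Occ w C l q) (hpq : p < q) : l < 2 * (q - p) :=
  h.sp.np (by omega) (hp.perC hq hpq.le)

theorem caseA {w C C' : ℤ → α} {i l l' : ℤ} (h : Good w C i l) (h' : Good w C' 0 l')
    (hlt : l < l') (hg : 6 * (l' - l) ≤ l)
    (hA : ∀ q p, Occ w C' l' q → Occ w C l p → q ≤ p → p ≤ q + (l' - l) → False) : False := by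
  have hlpos := h.pos
  have hcut' : Occ w C' l' (-l') := by
    have := h'.cut
    rwa [zero_sub] at this
  have hw : ∀ x, -l' ≤ x → x < 0 → w x = w (x + l') := by
    intro x h1 h2
    rw [hcut'.at x (x + l') (by ring) (by omega) (by omega),
      h'.self.at (x + l') (x + l') (by ring) (by omega) (by omega)]
  have hC0 : ∀ t, 0 ≤ t → t < l' → C' t = w t := by
    intro t h1 h2
    exact (h'.self.at t t (by ring) h1 h2).symm
  have hC1 : ∀ t, 0 ≤ t → t < l' → C' t = w (t - l') := by
    intro t h1 h2
    exact (hcut'.at (t - l') t (by ring) h1 h2).symm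
  -- A1
  obtain ⟨q0, hq1, hq2, hq0⟩ := h'.cov (i - 1)
  obtain ⟨a, ha⟩ : ∃ a, a = i - q0 := ⟨_, rfl⟩
  have ha1 : l' - l < a := by
    by_contra hc
    exact hA q0 i hq0 h.self (by omega) (by omega)
  have ha2 : a < l := by
    by_contra hc
    exact hA q0 (i - l) hq0 h.cut (by omega) (by omega)
  have star1 : ∀ t, 0 ≤ t → t < a → C' t = C (l - a + t) := by
    intro t h1 h2
    rw [← hq0.at (q0 + t) t rfl h1 (by omega)]
    exact h.cut.at _ _ (by omega) (by omega) (by omega)
  have star2 : ∀ y, 0 ≤ y → y < l' - a → C' (a + y) = C y := by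
    intro y h1 h2
    rw [← hq0.at (q0 + (a + y)) (a + y) rfl (by omega) (by omega)]
    exact h.self.at _ _ (by omega) (by omega) (by omega)
  -- A2
  have hex : ∃ pm p0, Occ w C l pm ∧ Occ w C l p0 ∧ -l < pm ∧ pm ≤ p0 ∧ p0 < 0 ∧
      ∀ r, Occ w C l r → -l < r → r < 0 → r = pm ∨ r = p0 := by
    obtain ⟨p, hp1, hp2, hp⟩ := h.cov (-1)
    have hpl : -l < p := by
      by_contra hc
      exact hA (-l') p hcut' hp (by omega) (by omega)
    by_cases hone : ∃ r, Occ w C l r ∧ -l < r ∧ r < 0 ∧ r ≠ p
    · obtain ⟨r, hr, hr1, hr2, hrp⟩ := hone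
      rcases lt_or_gt_of_ne hrp with hlt' | hlt'
      · refine ⟨r, p, hr, hp, hr1, hlt'.le, by omega, ?_⟩
        intro s hs hs1 hs2
        by_contra hc
        push Not at hc
        have g1 := h.gap hr hp hlt'
        rcases lt_or_gt_of_ne hc.1 with e1 | e1
        · have g2 := h.gap hs hr e1
          omega
        · rcases lt_or_gt_of_ne hc.2 with e2 | e2
          · have g2 := h.gap hs hp e2
            have g3 := h.gap hr hs e1
            omega
          · have g2 := h.gap hp hs e2
            omega
      · refine ⟨p, r, hp, hr, hpl, hlt'.le, by omega, ?_⟩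
        intro s hs hs1 hs2
        by_contra hc
        push Not at hc
        have g1 := h.gap hp hr hlt'
        rcases lt_or_gt_of_ne hc.1 with e1 | e1
        · have g2 := h.gap hs hp e1
          omega
        · rcases lt_or_gt_of_ne hc.2 with e2 | e2
          · have g2 := h.gap hs hr e2
            have g3 := h.gap hp hs e1
            omega
          · have g2 := h.gap hr hs e2
            omega
    · refine ⟨p, p, hp, hp, hpl, le_rfl, by omega, ?_⟩
      intro r hr hr1 hr2
      by_contra hc
      push Not at hc
      exact hone ⟨r, hr, hr1, hr2, hc.1⟩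
  obtain ⟨pm, p0, hpm, hp0, hpml, hpmp, hp0n, hall⟩ := hex
  obtain ⟨p1, hp1a, hp1b, hp1⟩ := h.cov (p0 + l)
  have hp1g : l' - l < p1 := by
    by_contra hc
    by_cases hneg : p1 < 0
    · rcases hall p1 hp1 (by omega) hneg with e | e <;> omega
    · exact hA 0 p1 h'.self hp1 (by omega) (by omega)
  obtain ⟨pp, hppa, hppb, hpp⟩ := h.cov (pm - 1)
  have hppg : pp < -l' := by
    by_contra hc
    by_cases hneg : -l < pp
    · rcases hall pp hpp hneg (by omega) with e | e <;> omega
    · exact hA (-l') pp hcut' hpp (by omega) (by omega)
  have W1 : Per w p0 (p1 + l) (p1 - p0) := hp0.per hp1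
  have W2 : Per w pp (pm + l) (pm - pp) := hpp.per hpm
  have hD1 : l' < 2 * (p1 - p0) := by
    refine h'.sp.np (by omega) ?_
    intro t h1 h2
    rw [hC0 t h1 (by omega), hC0 (t + (p1 - p0)) (by omega) h2]
    exact W1.at _ _ rfl (by omega) (by omega)
  have hD2 : l' < 2 * (pm - pp) := by
    refine h'.sp.np (by omega) ?_
    intro t h1 h2
    rw [hC1 t h1 (by omega), hC1 (t + (pm - pp)) (by omega) h2]
    exact W2.at _ _ (by ring) (by omega) (by omega)
  rcases eq_or_lt_of_le hpmp with hone | htwo
  · -- A3
    subst hone
    obtain ⟨u, hu⟩ : ∃ u, u = l' - (pm - pp) := ⟨_, rfl⟩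
    obtain ⟨v, hv⟩ : ∃ v, v = l' - (p1 - pm) := ⟨_, rfl⟩
    -- u = π1, v = π2
    have P2 : Per C 0 (-pm + v) v := by
      intro y h1 h2
      have e1 := hp0.at (pm + y) y rfl h1 (by omega)
      have e2 := hw (pm + y) (by omega) (by omega)
      have e3 := W1.at (pm + y + v) (pm + y + l') (by omega) (by omega) (by omega)
      have e4 := hp0.at (pm + y + v) (y + v) (by ring) (by omega) (by omega)
      rw [← e1, e2, ← e3, e4]
    have P1 : Per C (-pm - u) l u := by
      intro y h1 h2
      have e1 := hp0.at (pm + y) y rfl (by omega) (by omega)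
      have e2 := hp0.at (pm + y + u) (y + u) (by ring) (by omega) (by omega)
      have e3 := hw (pm + y + u - l') (by omega) (by omega)
      have e4 := W2.at (pm + y + u - l') (pm + y) (by omega) (by omega) (by omega)
      rw [← e1, ← e4, e3, ← e2]
      congr 1
      ring
    have hup : 0 < u := by omega
    have hvp : 0 < v := by omega
    obtain ⟨d, hd, hdu, hdv, hdP⟩ := (P1.mono (a' := -pm - u) (b' := -pm + v) le_rfl
      (by omega)).gcd (P2.mono (a' := -pm - u) (b' := -pm + v) (by omega) le_rfl) hup hvp
      (by omega)
    have hdu' := Int.le_of_dvd hup hdu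
    have hdv' := Int.le_of_dvd hvp hdv
    have Q2 : Per C 0 (-pm + v) d :=
      P2.lift hvp hd hdv hdP (by omega) le_rfl (by omega)
    have Q1 : Per C (-pm - u) l d :=
      P1.lift hup hd hdu hdP le_rfl (by omega) (by omega)
    have Q : Per C 0 l d := Q2.union Q1 (by omega)
    have hnp := h.sp.np hd Q
    have hud : u = d := by
      obtain ⟨k, hk⟩ := hdu
      have : k < 2 := by
        by_contra hc
        have : d * 2 ≤ d * k := by
          apply mul_le_mul_of_nonneg_left (by omega) hd.le
        omega
      have : 0 < k := by
        by_contra hc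
        have : d * k ≤ 0 := mul_nonpos_of_nonneg_of_nonpos hd.le (by omega)
        omega
      have : k = 1 := by omega
      subst this
      omega
    have hvd : v = d := by
      obtain ⟨k, hk⟩ := hdv
      have : k < 2 := by
        by_contra hc
        have : d * 2 ≤ d * k := by
          apply mul_le_mul_of_nonneg_left (by omega) hd.le
        omega
      have : 0 < k := by
        by_contra hc
        have : d * k ≤ 0 := mul_nonpos_of_nonneg_of_nonpos hd.le (by omega)
        omega
      have : k = 1 := by omega
      subst this
      omega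
    have R1 : Per C' 0 (l + pm + d) d := by
      intro t h1 h2
      rw [hC1 t h1 (by omega), hC1 (t + d) (by omega) (by omega),
        hpp.at (t - l') (t - pm - d) (by omega) (by omega) (by omega),
        hpp.at (t + d - l') (t - pm) (by omega) (by omega) (by omega)]
      exact Q.at _ _ (by ring) (by omega) (by omega)
    have R2 : Per C' (l' + pm - d) l' d := by
      intro t h1 h2
      rw [hC0 t (by omega) (by omega), hC0 (t + d) (by omega) h2,
        hp1.at t (t - p1) (by omega) (by omega) (by omega),
        hp1.at (t + d) (t + d - p1) (by omega) (by omega) (by omega)]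
      exact Q.at _ _ (by ring) (by omega) (by omega)
    have R := R1.union R2 (by omega)
    have := h'.sp.np hd R
    omega
  · -- A4
    obtain ⟨D, hD⟩ : ∃ D, D = p0 - pm := ⟨_, rfl⟩
    obtain ⟨E, hE⟩ : ∃ E, E = l' - D := ⟨_, rfl⟩
    obtain ⟨b, hb⟩ : ∃ b, b = -p0 := ⟨_, rfl⟩
    have hgap := h.gap hpm hp0 htwo
    have PD : Per C 0 l D := by
      rw [hD]
      exact hpm.perC hp0 htwo.le
    have WD : Per w pm (p0 + l) D := by
      rw [hD]
      exact hpm.per hp0
    have PE : Per C 0 l E := by
      intro y h1 h2
      have e1 := hpm.at (pm + y) y rfl h1 (by omega)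
      have e2 := hw (pm + y) (by omega) (by omega)
      have e3 := hp0.at (pm + y + l') (y + E) (by omega) (by omega) (by omega)
      rw [← e1, e2, e3]
    have PE' : Per C' 0 l' E := by
      intro t h1 h2
      have e1 := WD.at (t - D) t (by ring) (by omega) (by omega)
      have e2 := hw (t - D) (by omega) (by omega)
      rw [hC0 t h1 (by omega), hC0 (t + E) (by omega) h2, ← e1, e2]
      congr 1
      omega
    have hE2 := h'.sp.np (by omega) PE'
    have s1 : ∀ t, 0 ≤ t → t < l - b → C' t = C (b + t) := by
      intro t h1 h2
      rw [hC0 t h1 (by omega)]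
      exact hp0.at _ _ (by omega) (by omega) (by omega)
    have s2 : ∀ y, 0 ≤ y → y < b + D → C' (E - b + y) = C y := by
      intro y h1 h2
      rw [hC1 _ (by omega) (by omega)]
      exact hpm.at _ _ (by omega) (by omega) (by omega)
    obtain ⟨T, hT⟩ : ∃ T, T = a - (E - b) := ⟨_, rfl⟩
    obtain ⟨L, hL⟩ : ∃ L, L = l - a - b := ⟨_, rfl⟩
    rcases lt_trichotomy T 0 with hT0 | hT0 | hT0
    · -- Θ < 0
      have P : Per C 0 (b + D - T) (-T) := by
        intro y h1 h2
        have e1 := s2 y h1 (by omega)
        have e2 := star2 (y + -T) (by omega) (by omega)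
        rw [← e1, ← e2]
        congr 1
        omega
      obtain ⟨d, hd, hd1, hd2, hd3⟩ := P.gcd (PD.mono (a' := 0) (b' := b + D - T) le_rfl
        (by omega)) (by omega) (by omega) (by omega)
      have Q : Per C 0 l d := PD.lift (by omega) hd hd2 hd3 le_rfl (by omega) (by omega)
      have hnp := h.sp.np hd Q
      have hdd : D ≤ d := by
        obtain ⟨k, hk⟩ := hd2
        have : k < 2 := by
          by_contra hc
          have : d * 2 ≤ d * k := mul_le_mul_of_nonneg_left (by omega) hd.le
          omega
        have : d * k ≤ d * 1 := mul_le_mul_of_nonneg_left (by omega) hd.le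
        omega
      have := Int.le_of_dvd (by omega) hd1
      omega
    · -- Θ = 0
      have PL : Per C b l L := by
        intro x h1 h2
        have e1 := s1 (x - b) (by omega) (by omega)
        have e2 := star1 (x - b) (by omega) (by omega)
        rw [show b + (x - b) = x by ring] at e1
        rw [← e1, e2]
        congr 1
        omega
      have Pδ : Per C D l (l' - 2 * D) := by
        intro x h1 h2
        have e1 := PD.at (x - D) x (by ring) (by omega) (by omega)
        have e2 := PE.at (x - D) (x + (l' - 2 * D)) (by omega) (by omega) (by omega)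
        rw [← e1, e2]
      obtain ⟨d, hd, hd1, hd2, hd3⟩ := (PL.mono (a' := D) (b' := l) (by omega) le_rfl).gcd Pδ
        (by omega) (by omega) (by omega)
      have hd1' := Int.le_of_dvd (by omega) hd1
      have Q : Per C b l d := PL.lift (by omega) hd hd1 hd3 (by omega) le_rfl (by omega)
      have R1 : Per C' 0 (l - b) d := by
        intro t h1 h2
        rw [s1 t h1 (by omega), s1 (t + d) (by omega) h2]
        exact Q.at _ _ (by ring) (by omega) (by omega)
      have R2 : Per C' (E - b) (E - b + (l - D)) d := by
        intro t h1 h2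
        have e1 := s2 (t - (E - b)) (by omega) (by omega)
        have e2 := s2 (t + d - (E - b)) (by omega) (by omega)
        have e3 := PD.at (t - (E - b)) (t - (E - b) + D) rfl (by omega) (by omega)
        have e4 := PD.at (t + d - (E - b)) (t + d - (E - b) + D) rfl (by omega) (by omega)
        rw [show E - b + (t - (E - b)) = t by ring] at e1
        rw [show E - b + (t + d - (E - b)) = t + d by ring] at e2
        rw [e1, e2, e3, e4]
        exact Q.at _ _ (by ring) (by omega) (by omega)
      have R : Per C' 0 (E - b + (l - D)) d := R1.union R2 (by omega)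
      have Rδ : Per C' 0 (E - b + (l - D)) (l' - 2 * D) := R.dvd hd (by omega) hd2
      refine h'.sp D (l' - 2 * D) (by omega) (by omega) (by omega) (by omega) (by omega)
        (by omega) ?_ ?_
      · intro t h1 h2
        exact (Rδ.at t _ (by ring) h1 (by omega)).symm
      · intro t h1 h2
        exact (PE'.at t _ (by omega) h1 (by omega)).symm
    · -- Θ > 0
      have PT : Per C 0 (b + D) T := by
        intro y h1 h2
        have e1 := s2 (y + T) (by omega) (by omega)
        have e2 := star2 y h1 (by omega)
        rw [← e1, ← e2]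
        congr 1
        omega
      rcases lt_trichotomy L 0 with hL0 | hL0 | hL0
      · -- Λ < 0
        have P : Per C (l - a) l (-L) := by
          intro x h1 h2
          have e1 := s1 (x - (l - a)) (by omega) (by omega)
          have e2 := star1 (x - (l - a)) (by omega) (by omega)
          rw [show l - a + (x - (l - a)) = x by ring] at e2
          rw [← e2, e1]
          congr 1
          omega
        obtain ⟨d, hd, hd1, hd2, hd3⟩ := P.gcd (PD.mono (a' := l - a) (b' := l) (by omega)
          le_rfl) (by omega) (by omega) (by omega)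
        have Q : Per C 0 l d := PD.lift (by omega) hd hd2 hd3 (by omega) le_rfl (by omega)
        have hnp := h.sp.np hd Q
        have hdd : D ≤ d := by
          obtain ⟨k, hk⟩ := hd2
          have : k < 2 := by
            by_contra hc
            have : d * 2 ≤ d * k := mul_le_mul_of_nonneg_left (by omega) hd.le
            omega
          have : d * k ≤ d * 1 := mul_le_mul_of_nonneg_left (by omega) hd.le
          omega
        have := Int.le_of_dvd (by omega) hd1
        omega
      · -- Λ = 0
        have Pδ : Per C 0 (l - D) (l' - 2 * D) := by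
          intro x h1 h2
          have e1 := PD.at (x + (l' - 2 * D)) (x + E) (by omega) (by omega) (by omega)
          have e2 := PE.at x (x + E) rfl (by omega) (by omega)
          rw [e1, e2]
        obtain ⟨d, hd, hd1, hd2, hd3⟩ := (PT.mono (a' := 0) (b' := l - D) le_rfl
          (by omega)).gcd Pδ (by omega) (by omega) (by omega)
        have hd1' := Int.le_of_dvd (by omega) hd1
        have Q : Per C 0 (b + D) d := PT.lift (by omega) hd hd1 hd3 le_rfl (by omega) (by omega)
        have R2 : Per C' (E - b) l' d := by
          intro t h1 h2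
          have e1 := s2 (t - (E - b)) (by omega) (by omega)
          have e2 := s2 (t + d - (E - b)) (by omega) (by omega)
          rw [show E - b + (t - (E - b)) = t by ring] at e1
          rw [show E - b + (t + d - (E - b)) = t + d by ring] at e2
          rw [e1, e2]
          exact Q.at _ _ (by ring) (by omega) (by omega)
        have R1 : Per C' (D - b) (l - b) d := by
          intro t h1 h2
          rw [s1 t (by omega) (by omega), s1 (t + d) (by omega) h2]
          have e3 := PD.at (b + t - D) (b + t) (by ring) (by omega) (by omega)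
          have e4 := PD.at (b + (t + d) - D) (b + (t + d)) (by ring) (by omega) (by omega)
          rw [← e3, ← e4]
          exact Q.at _ _ (by ring) (by omega) (by omega)
        have R : Per C' (D - b) l' d := R1.union R2 (by omega)
        have Rδ : Per C' (D - b) l' (l' - 2 * D) := R.dvd hd (by omega) hd2
        refine h'.sp D D (by omega) (by omega) (by omega) le_rfl (by omega) (by omega) ?_ ?_
        · intro t h1 h2
          rw [Rδ.at (D + t) (E + t) (by omega) (by omega) (by omega)]
          exact (PE'.at t _ (by ring) h1 (by omega)).symm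
        · intro t h1 h2
          exact (PE'.at t _ (by omega) h1 (by omega)).symm
      · -- both positive
        have PL : Per C b l L := by
          intro x h1 h2
          have e1 := s1 (x - b) (by omega) (by omega)
          have e2 := star1 (x - b) (by omega) (by omega)
          rw [show b + (x - b) = x by ring] at e1
          rw [← e1, e2]
          congr 1
          omega
        obtain ⟨d, hd, hd1, hd2, hd3⟩ := (PT.mono (a' := b) (b' := b + D) (by omega)
          le_rfl).gcd (PL.mono (a' := b) (b' := b + D) le_rfl (by omega)) hT0 hL0 (by omega)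
        have hd1' := Int.le_of_dvd (by omega) hd1
        have hd2' := Int.le_of_dvd (by omega) hd2
        have Q1 : Per C 0 (b + D) d := PT.lift hT0 hd hd1 hd3 (by omega) le_rfl (by omega)
        have Q2 : Per C b l d := PL.lift hL0 hd hd2 hd3 le_rfl (by omega) (by omega)
        have Q := Q1.union Q2 (by omega)
        have := h.sp.np hd Q
        omega

end Pool.Agent.R193.CV
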