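import Pool.Agent.R193.CV.CaseA

/-!
# Case B and the main claim for MP_419f2f_co
-/

namespace Pool.Agent.R193.CV

variable {α : Type*}

theorem caseB {w C C' : ℤ → α} {i l l' : ℤ} (h : Good w C i l) (h' : Good w C' 0 l')
    (hlt : l < l') (hg : 6 * (l' - l) ≤ l)
    (hB : ∃ q p, Occ w C' l' q ∧ Occ w C l p ∧ q ≤ p ∧ p ≤ q + (l' - l)) :
    ∃ u v, v < u ∧ u < l ∧ Per C 0 l (l - u) ∧ Per C 0 l (l - v) ∧
      l' - l = l - u - v ∧ ∀ b, v < b → b < l → Per C 0 l (l - b) → b = u := by
  have hlpos := h.pos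
  have hcut' : Occ w C' l' (-l') := by
    have := h'.cut
    rwa [zero_sub] at this
  obtain ⟨q, p, hq, hp, hqp, hpq⟩ := hB
  obtain ⟨x0, hx0⟩ : ∃ x0, x0 = p - q := ⟨_, rfl⟩
  obtain ⟨y, hy⟩ : ∃ y, y = l' - l - x0 := ⟨_, rfl⟩
  have hM : ∀ t, 0 ≤ t → t < l → C' (x0 + t) = C t := by
    intro t h1 h2
    rw [← hq.at (q + (x0 + t)) (x0 + t) rfl (by omega) (by omega)]
    exact hp.at _ _ (by omega) h1 h2
  have hshift : ∀ r, Occ w C' l' r → Occ w C l (r + x0) := by
    intro r hr t h1 h2
    rw [← hM t h1 h2]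
    exact hr.at _ _ (by ring) (by omega) (by omega)
  -- occurrences of `C` near `i - l` and `i`
  have hnear : ∀ r, Occ w C l r → i - l - (l' - l) ≤ r → r ≤ i + (l' - l) →
      r = i - l ∨ r = i := by
    intro r hr h1 h2
    by_contra hc
    push Not at hc
    rcases lt_or_gt_of_ne hc.1 with e1 | e1
    · have := h.gap hr h.cut e1
      omega
    · have g1 := h.gap h.cut hr e1
      rcases lt_or_gt_of_ne hc.2 with e2 | e2
      · have := h.gap hr h.self e2
        omega
      · have := h.gap h.self hr e2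
        omega
  have both : Occ w C' l' (i - l - x0) ∧ Occ w C' l' (i - x0) := by
    obtain ⟨q0, h1, h2, hq0⟩ := h'.cov (i - 1)
    rcases hnear (q0 + x0) (hshift q0 hq0) (by omega) (by omega) with e | e
    · have e0 : q0 = i - l - x0 := by omega
      subst e0
      refine ⟨hq0, ?_⟩
      obtain ⟨q1, h3, h4, hq1⟩ := h'.cov (i + y)
      rcases hnear (q1 + x0) (hshift q1 hq1) (by omega) (by omega) with e' | e'
      · omega
      · have e1 : q1 = i - x0 := by omega
        rwa [e1] at hq1
    · have e0 : q0 = i - x0 := by omega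
      subst e0
      refine ⟨?_, hq0⟩
      obtain ⟨q1, h3, h4, hq1⟩ := h'.cov (i - x0 - 1)
      rcases hnear (q1 + x0) (hshift q1 hq1) (by omega) (by omega) with e' | e'
      · have e1 : q1 = i - l - x0 := by omega
        rwa [e1] at hq1
      · omega
  obtain ⟨bo1, bo2⟩ := both
  have hX : ∀ t, 0 ≤ t → t < x0 → C' t = C (l - x0 + t) := by
    intro t h1 h2
    rw [← bo2.at (i - x0 + t) t rfl h1 (by omega)]
    exact h.cut.at _ _ (by omega) (by omega) (by omega)
  have hY : ∀ t, 0 ≤ t → t < y → C' (x0 + l + t) = C t := by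
    intro t h1 h2
    rw [← bo1.at (i + t) (x0 + l + t) (by omega) (by omega) (by omega)]
    exact h.self.at _ _ rfl h1 (by omega)
  -- B1
  have hu := hshift _ hcut'
  have hx := hshift 0 h'.self
  rw [zero_add] at hx
  obtain ⟨r, hr1, hr2, hr⟩ := h.cov (-l' + x0 + l)
  have hD1 := h.gap hu hr (by omega)
  have hD2 := h.gap hr hx (by omega)
  obtain ⟨b1, hb1⟩ : ∃ b1, b1 = l - (r - (-l' + x0)) := ⟨_, rfl⟩
  obtain ⟨b2, hb2⟩ : ∃ b2, b2 = l - (x0 - r) := ⟨_, rfl⟩
  have pe1 : Per C 0 l (l - b1) := by
    have := hu.perC hr (by omega)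
    rwa [show r - (-l' + x0) = l - b1 by omega] at this
  have pe2 : Per C 0 l (l - b2) := by
    have := hr.perC hx (by omega)
    rwa [show x0 - r = l - b2 by omega] at this
  have right : Per C 0 (b1 + y) b1 := by
    intro t h1 h2
    have e1 := hcut'.at (-l' + x0 + l + t) (x0 + l + t) (by ring) (by omega) (by omega)
    have e2 := hY t h1 (by omega)
    have e3 := hr.at (-l' + x0 + l + t) (t + b1) (by omega) (by omega) (by omega)
    rw [← e2, ← e1, e3]
  have left : Per C (l - b2 - x0) l b2 := by
    intro s h1 h2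
    have e1 := h'.self.at (s - (l - b2) + x0) (s - (l - b2) + x0) (by ring) (by omega) (by omega)
    have e2 := hX (s - (l - b2) + x0) (by omega) (by omega)
    have e3 := hr.at (s - (l - b2) + x0) s (by omega) (by omega) (by omega)
    rw [← e3, e1, e2]
    congr 1
    ring
  have hne : b1 ≠ b2 := by
    intro he
    have hDD : r - (-l' + x0) = x0 - r := by omega
    have W1 := hu.per hr
    have W2 := hr.per hx
    rw [hDD] at W1
    have W := W1.union W2 (by omega)
    have hP : Per C' 0 l' (x0 - r) := by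
      intro t h1 h2
      rw [← h'.self.at t t (by ring) h1 (by omega),
        ← hcut'.at (t - (x0 - r)) (t + (x0 - r)) (by omega) (by omega) (by omega)]
      exact (W.at _ _ (by ring) (by omega) (by omega)).symm
    have := h'.sp.np (by omega) hP
    omega
  have sit : Sit C C' l (l' - l) x0 y b1 b2 :=
    { hg := by omega
      hgl := hg
      hx0 := by omega
      hy := by omega
      hxy := by omega
      hX := hX
      hM := hM
      hY := hY
      p1 := pe1
      p2 := pe2
      hb1 := by omega
      hb2 := by omega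
      hb := by omega
      right := right
      left := left
      sp := h.sp
      sp' := by
        rw [show l + (l' - l) = l' by ring]
        exact h'.sp }
  exact sit.concl hne

theorem Occ.shift {w C : ℤ → α} {l p : ℤ} (h : Occ w C l p) (s : ℤ) :
    Occ (fun x => w (x + s)) C l (p - s) := by
  intro t h1 h2
  exact h.at _ _ (by ring) h1 h2

theorem Good.shift {w C : ℤ → α} {i l : ℤ} (h : Good w C i l) (s : ℤ) :
    Good (fun x => w (x + s)) C (i - s) l where
  pos := h.pos
  self := h.self.shift s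
  cut := by
    have := h.cut.shift s
    rwa [show i - l - s = i - s - l by ring] at this
  cov := by
    intro x
    obtain ⟨p, h1, h2, h3⟩ := h.cov (x + s)
    exact ⟨p - s, by omega, by omega, h3.shift s⟩
  sp := h.sp

theorem claim {w C C' : ℤ → α} {i j l l' : ℤ} (h : Good w C i l) (h' : Good w C' j l')
    (hlt : l < l') (hg : 6 * (l' - l) ≤ l) :
    ∃ u v, v < u ∧ u < l ∧ Per C 0 l (l - u) ∧ Per C 0 l (l - v) ∧
      l' - l = l - u - v ∧ ∀ b, v < b → b < l → Per C 0 l (l - b) → b = u := by
  have h1 := h.shift j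
  have h2 := h'.shift j
  rw [sub_self] at h2
  by_cases hB : ∃ q p, Occ (fun x => w (x + j)) C' l' q ∧ Occ (fun x => w (x + j)) C l p ∧
      q ≤ p ∧ p ≤ q + (l' - l)
  · exact caseB h1 h2 hlt hg hB
  · exfalso
    push Not at hB
    refine caseA h1 h2 hlt hg ?_
    intro q p hq hp hqp hpq
    have := hB q p hq hp hqp
    omega

/-- For a given `l` there is at most one `l'` slightly larger than `l`. -/
theorem unique_next {w C C' C'' : ℤ → α} {i j k l l' l'' : ℤ} (h : Good w C i l)
    (h' : Good w C' j l') (h'' : Good w C'' k l'') (hlt : l < l') (hg : 6 * (l' - l) ≤ l)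
    (hlt' : l < l'') (hg' : 6 * (l'' - l) ≤ l) : l' = l'' := by
  obtain ⟨u, v, h1, h2, h3, h4, h5, h6⟩ := claim h h' hlt hg
  obtain ⟨u', v', h1', h2', h3', h4', h5', h6'⟩ := claim h h'' hlt' hg'
  have hvv : v = v' := by
    rcases lt_trichotomy v v' with e | e | e
    · have a1 := h6 v' e (by omega) h4'
      have a2 := h6 u' (by omega) h2' h3'
      omega
    · exact e
    · have a1 := h6' v e (by omega) h4
      have a2 := h6' u (by omega) h2 h3
      omega
  have := h6 u' (by omega) h2' h3'
  omega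

end Pool.Agent.R193.CV
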