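import Pool.Agent.R193.CV.Tools

/-!
# The finite lemma (case B2) for MP_419f2f_co
-/

namespace Pool.Agent.R193.CV

variable {α : Type*}

/-- The situation `C' = X₀ C Y₀`. -/
structure Sit (C C' : ℤ → α) (l g x0 y b1 b2 : ℤ) : Prop where
  hg : 0 < g
  hgl : 6 * g ≤ l
  hx0 : 0 ≤ x0
  hy : 0 ≤ y
  hxy : x0 + y = g
  hX : ∀ t, 0 ≤ t → t < x0 → C' t = C (l - x0 + t)
  hM : ∀ t, 0 ≤ t → t < l → C' (x0 + t) = C t
  hY : ∀ t, 0 ≤ t → t < y → C' (x0 + l + t) = C t
  p1 : Per C 0 l (l - b1)
  p2 : Per C 0 l (l - b2)
  hb1 : 2 * b1 < l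
  hb2 : 2 * b2 < l
  hb : b1 + b2 + g = l
  right : Per C 0 (b1 + y) b1
  left : Per C (l - b2 - x0) l b2
  sp : SP3 C l
  sp' : SP3 C' (l + g)

theorem Sit.rev {C C' : ℤ → α} {l g x0 y b1 b2 : ℤ} (h : Sit C C' l g x0 y b1 b2) :
    Sit (fun t => C (l - 1 - t)) (fun t => C' (l + g - 1 - t)) l g y x0 b2 b1 where
  hg := h.hg
  hgl := h.hgl
  hx0 := h.hy
  hy := h.hx0
  hxy := by have := h.hxy; omega
  hX := by
    intro t h1 h2
    have hxy := h.hxy
    have := h.hY (y - 1 - t) (by omega) (by omega)
    rw [show x0 + l + (y - 1 - t) = l + g - 1 - t by omega] at this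
    rw [this]
    congr 1
    ring
  hM := by
    intro t h1 h2
    have hxy := h.hxy
    have := h.hM (l - 1 - t) (by omega) (by omega)
    rw [show x0 + (l - 1 - t) = l + g - 1 - (y + t) by omega] at this
    exact this
  hY := by
    intro t h1 h2
    have hxy := h.hxy
    have := h.hX (x0 - 1 - t) (by omega) (by omega)
    rw [show x0 - 1 - t = l + g - 1 - (y + l + t) by omega] at this
    rw [this]
    congr 1
    omega
  p1 := by
    intro x h1 h2
    have hb := h.hb
    exact (h.p2.at (l - 1 - (x + (l - b2))) (l - 1 - x) (by ring) (by omega) (by omega)).symm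
  p2 := by
    intro x h1 h2
    exact (h.p1.at (l - 1 - (x + (l - b1))) (l - 1 - x) (by ring) (by omega) (by omega)).symm
  hb1 := h.hb2
  hb2 := h.hb1
  hb := by have := h.hb; omega
  right := by
    intro x h1 h2
    exact (h.left.at (l - 1 - (x + b2)) (l - 1 - x) (by ring) (by omega) (by omega)).symm
  left := by
    intro x h1 h2
    exact (h.right.at (l - 1 - (x + b1)) (l - 1 - x) (by ring) (by omega) (by omega)).symm
  sp := h.sp.rev
  sp' := h.sp'.rev

/-- Transfer of a period through a shifted copy. -/
theorem Per.shift {f f' : ℤ → α} {a b p s : ℤ} (h : Per f a b p)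
    (he : ∀ t, a ≤ t → t < b → f' (t + s) = f t) (hp : 0 ≤ p) : Per f' (a + s) (b + s) p := by
  intro x h1 h2
  have e1 := he (x - s) (by omega) (by omega)
  have e2 := he (x - s + p) (by omega) (by omega)
  rw [show x - s + s = x by ring] at e1
  rw [show x - s + p + s = x + p by ring] at e2
  rw [e1, e2]
  exact h (x - s) (by omega) (by omega)

theorem Sit.lemT {C C' : ℤ → α} {l g x0 y b1 b2 : ℤ} (h : Sit C C' l g x0 y b1 b2)
    (hb : b2 < b1) {d : ℤ} (hd : 0 < d) (hd1 : d ∣ b1) (hd2 : d ∣ b2)
    (hP : Per C 0 (b1 + y) d) (hQ : Per C (l - b2 - x0) l d) : False := by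
  have hg := h.hg
  have hgl := h.hgl
  have hx0 := h.hx0
  have hy := h.hy
  have hxy := h.hxy
  have hb1 := h.hb1
  have hb2 := h.hb2
  have hbb := h.hb
  have hd2' := Int.le_of_dvd (by omega) hd2
  -- `C'` has period `d` on its first part
  have hA : Per C' 0 (b2 + x0) d := by
    intro t ht ht'
    have ev : ∀ t, 0 ≤ t → t < b2 + x0 → C' t = C (l - b2 - x0 + b2 + t) ∨
        (x0 ≤ t ∧ C' t = C (t - x0)) := by
      intro t ht ht'
      by_cases hc : t < x0
      · left
        rw [h.hX t ht hc]
        congr 1
        ring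
      · right
        refine ⟨by omega, ?_⟩
        have := h.hM (t - x0) (by omega) (by omega)
        rw [show x0 + (t - x0) = t by ring] at this
        exact this
    -- uniform description: `C' t = C (l - b2 - x0 + t)` for `t < b2 + x0`
    have ev2 : ∀ t, 0 ≤ t → t < b2 + x0 → C' t = C (l - b2 - x0 + t) := by
      intro t ht ht'
      rcases ev t ht ht' with h1 | ⟨h1, h2⟩
      · by_cases hc : t < x0
        · rw [h1]
          exact (h.left.at (l - b2 - x0 + t) _ (by ring) (by omega) (by omega)).symm
        · have h2 := h.hM (t - x0) (by omega) (by omega)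
          rw [show x0 + (t - x0) = t by ring] at h2
          rw [h2]
          exact h.p2.at _ _ (by ring) (by omega) (by omega)
      · rw [h2]
        exact h.p2.at _ _ (by ring) (by omega) (by omega)
    rw [ev2 t ht (by omega), ev2 (t + d) (by omega) ht']
    exact hQ.at _ _ (by ring) (by omega) (by omega)
  have hB : Per C' x0 (x0 + b1 + y) d := by
    have := hP.shift (f' := C') (s := x0) (by
      intro t h1 h2
      rw [add_comm t x0]
      exact h.hM t h1 (by omega)) hd.le
    exact this.mono (by omega) (by omega)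
  have hU : Per C' 0 (x0 + b1 + y) d := hA.union hB (by omega)
  have hδ : Per C' 0 (x0 + b1 + y) (b1 - b2) :=
    hU.dvd hd (by omega) (dvd_sub hd1 hd2)
  -- `C'` has period `D2`
  have hD2 : Per C' 0 (l + g) (l - b2) := by
    intro t ht ht'
    by_cases h1 : t < x0
    · -- left
      rw [h.hX t ht h1]
      have e := h.hM (t + (l - b2) - x0) (by omega) (by omega)
      rw [show x0 + (t + (l - b2) - x0) = t + (l - b2) by ring] at e
      rw [e]
      exact (h.left.at _ _ (by ring) (by omega) (by omega)).symm
    · have e1 := h.hM (t - x0) (by omega) (by omega)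
      rw [show x0 + (t - x0) = t by ring] at e1
      rw [e1]
      by_cases h2 : t + (l - b2) < x0 + l
      · have e := h.hM (t + (l - b2) - x0) (by omega) (by omega)
        rw [show x0 + (t + (l - b2) - x0) = t + (l - b2) by ring] at e
        rw [e]
        exact h.p2.at _ _ (by ring) (by omega) (by omega)
      · have e := h.hY (t - b2 - x0) (by omega) (by omega)
        rw [show x0 + l + (t - b2 - x0) = t + (l - b2) by ring] at e
        rw [e]
        exact ((hP.dvd hd (by omega) hd2).at _ _ (by ring) (by omega) (by omega)).symm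
  refine h.sp' (l - b1) (b1 - b2) (by omega) (by omega) (by omega) (by omega) (by omega)
    (by omega) ?_ ?_
  · intro t h1 h2
    exact (hδ.at t _ (by ring) h1 (by omega)).symm
  · intro t h1 h2
    exact (hD2.at t _ (by omega) h1 (by omega)).symm

/-- Periods on a prefix give periods on the matching suffix (through the period `l - b`). -/
theorem Per.toSuffix {C : ℤ → α} {l b d : ℤ} (hb : Per C 0 l (l - b)) (_hbl : b ≤ l)
    (h : Per C 0 b d) (hd : 0 ≤ d) : Per C (l - b) l d := by
  intro x h1 h2
  have e1 := hb.at (x - (l - b)) x (by ring) (by omega) (by omega)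
  have e2 := hb.at (x + d - (l - b)) (x + d) (by ring) (by omega) (by omega)
  rw [← e1, ← e2]
  exact h.at _ _ (by ring) (by omega) (by omega)

theorem Per.toPrefix {C : ℤ → α} {l b d : ℤ} (hb : Per C 0 l (l - b)) (_hbl : b ≤ l)
    (h : Per C (l - b) l d) (hd : 0 ≤ d) : Per C 0 b d := by
  intro x h1 h2
  have e1 := hb.at x (x + (l - b)) (by ring) (by omega) (by omega)
  have e2 := hb.at (x + d) (x + d + (l - b)) (by ring) (by omega) (by omega)
  rw [e1, e2]
  exact h.at _ _ (by ring) (by omega) (by omega)

/-- Two borders `b' < b` of `C` give the period `b - b'` of the prefix `C[0,b)`. -/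
theorem Per.borders {C : ℤ → α} {l b b' : ℤ} (hb : Per C 0 l (l - b)) (hb' : Per C 0 l (l - b'))
    (h : b' ≤ b) (_hbl : b ≤ l) : Per C 0 b (b - b') := by
  intro x h1 h2
  have e1 := hb.at (x + (b - b')) (x + (l - b')) (by ring) (by omega) (by omega)
  have e2 := hb'.at x (x + (l - b')) (by ring) (by omega) (by omega)
  rw [e2, ← e1]

/-- The finite lemma when `b2 < b1`. -/
theorem Sit.main {C C' : ℤ → α} {l g x0 y b1 b2 : ℤ} (h : Sit C C' l g x0 y b1 b2)
    (hb : b2 < b1) : ∀ b, b2 < b → b < l → Per C 0 l (l - b) → b = b1 := by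
  have hg := h.hg
  have hgl := h.hgl
  have hx0 := h.hx0
  have hy := h.hy
  have hxy := h.hxy
  have hb1 := h.hb1
  have hb2 := h.hb2
  have hbb := h.hb
  have hdel : Per C 0 b1 (b1 - b2) := h.p1.borders h.p2 hb.le (by omega)
  intro b hbb2 hbl hper
  have hnp := h.sp.np (by omega) hper
  by_contra hne
  by_cases hx : b1 - b2 ≤ x0
  · -- (B-i)
    have hs : Per C (l - b1) l (b1 - b2) := h.p1.toSuffix (by omega) hdel (by omega)
    have hl' : Per C (l - b1) l b2 := h.left.mono (by omega) le_rfl
    obtain ⟨d, hd, hd1, hd2, hd3⟩ := hl'.gcd hs (by omega) (by omega) (by omega)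
    have hdb1 : d ∣ b1 := by
      have := dvd_add hd2 hd1
      simpa using this
    have hpre : Per C 0 b1 d := h.p1.toPrefix (by omega) hd3 hd.le
    refine h.lemT hb hd hdb1 hd1 ?_ ?_
    · exact h.right.lift (by omega) hd hdb1 hpre (by omega) (by omega) (by omega)
    · exact h.left.lift (by omega) hd hd1 hd3 (by omega) le_rfl (by omega)
  · rcases lt_or_gt_of_ne hne with hlt | hgt
    · -- (B-iii) : b2 < b < b1
      have hd'' : Per C 0 b (b - b2) := hper.borders h.p2 (by omega) (by omega)
      have hd' : Per C 0 b1 (b1 - b) := h.p1.borders hper (by omega) (by omega)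
      by_cases hx2 : b - b2 ≤ x0
      · have hs : Per C (l - b) l (b - b2) := hper.toSuffix (by omega) hd'' (by omega)
        have hl' : Per C (l - b) l b2 := h.left.mono (by omega) le_rfl
        obtain ⟨d, hd, hd1, hd2, hd3⟩ := hl'.gcd hs (by omega) (by omega) (by omega)
        have hpre : Per C 0 b d := hper.toPrefix (by omega) hd3 hd.le
        have hdle := Int.le_of_dvd (by omega) hd2
        obtain ⟨e, he, he1, he2, he3⟩ := hpre.gcd (hd'.mono le_rfl hlt.le) hd (by omega)
          (by omega)
        have heb2 : e ∣ b2 := he1.trans hd1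
        have heb : e ∣ b := by
          have := dvd_add (he1.trans hd2) heb2
          simpa using this
        have heb1 : e ∣ b1 := by
          have := dvd_add he2 heb
          simpa using this
        have hpre1 : Per C 0 b1 e :=
          hd'.lift (by omega) he he2 he3 le_rfl hlt.le (by omega)
        have hsuf : Per C (l - b1) l e := h.p1.toSuffix (by omega) hpre1 he.le
        refine h.lemT hb he heb1 heb2 ?_ ?_
        · exact h.right.lift (by omega) he heb1 hpre1 (by omega) (by omega) (by omega)
        · exact h.left.lift (by omega) he heb2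
            (hsuf.mono (a' := l - b2) (b' := l) (by omega) le_rfl) (by omega) le_rfl (by omega)
      · -- x0 < b - b2
        have hPe : Per C 0 y (l - 2 * b1) := by
          intro t h1 h2
          have e1 := h.right.at (t + (l - 2 * b1)) (t + (l - 2 * b1) + b1) rfl (by omega)
            (by omega)
          have e2 := h.p1.at t (t + (l - 2 * b1) + b1) (by ring) (by omega) (by omega)
          rw [e1, e2]
        obtain ⟨d, hd, hd1, hd2, hd3⟩ := hPe.gcd (hd'.mono (b' := y) le_rfl (by omega))
          (by omega) (by omega) (by omega)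
        have hpre1 : Per C 0 b1 d :=
          hd'.lift (by omega) hd hd2 hd3 le_rfl (by omega) (by omega)
        have hpe1 : Per C 0 b1 (l - 2 * b1) := hpre1.dvd hd (by omega) hd1
        refine h.sp b1 b1 (by omega) (by omega) (by omega) le_rfl (by omega) (by omega) ?_ ?_
        · intro t h1 h2
          by_cases ht : t < y
          · exact (h.right.at t _ (by ring) h1 (by omega)).symm
          · have e1 := h.p1.at (t - (l - 2 * b1)) (b1 + t) (by ring) (by omega) (by omega)
            have e2 := hpe1.at (t - (l - 2 * b1)) t (by ring) (by omega) (by omega)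
            rw [← e1, ← e2]
        · intro t h1 h2
          exact (h.p1.at t _ (by ring) h1 (by omega)).symm
    · -- (B-ii) : b1 < b
      have hd1' : Per C 0 b (b - b1) := hper.borders h.p1 (by omega) (by omega)
      obtain ⟨d, hd, hd1, hd2, hd3⟩ := (h.right.mono (b' := b) le_rfl (by omega)).gcd hd1'
        (by omega) (by omega) (by omega)
      have hdle := Int.le_of_dvd (by omega) hd2
      obtain ⟨e, he, he1, he2, he3⟩ := (hd3.mono (b' := b1) le_rfl (by omega)).gcd hdel hd
        (by omega) (by omega)
      have heb1 : e ∣ b1 := he1.trans hd1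
      have heb2 : e ∣ b2 := by
        have := dvd_sub heb1 he2
        simpa using this
      have hsuf : Per C (l - b1) l e := h.p1.toSuffix (by omega) he3 he.le
      refine h.lemT hb he heb1 heb2 ?_ ?_
      · exact h.right.lift (by omega) he heb1 he3 (by omega) (by omega) (by omega)
      · exact h.left.lift (by omega) he heb2
            (hsuf.mono (a' := l - b2) (b' := l) (by omega) le_rfl) (by omega) le_rfl (by omega)

/-- The finite lemma: the two borders of the situation are the two longest ones. -/
theorem Sit.concl {C C' : ℤ → α} {l g x0 y b1 b2 : ℤ} (h : Sit C C' l g x0 y b1 b2)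
    (hne : b1 ≠ b2) : ∃ u v, v < u ∧ u < l ∧ Per C 0 l (l - u) ∧ Per C 0 l (l - v) ∧
      g = l - u - v ∧ ∀ b, v < b → b < l → Per C 0 l (l - b) → b = u := by
  have hb1 := h.hb1
  have hb2 := h.hb2
  have hbb := h.hb
  have hg := h.hg
  have hgl := h.hgl
  rcases lt_or_gt_of_ne hne with hlt | hgt
  · refine ⟨b2, b1, hlt, by omega, h.p2, h.p1, by omega, ?_⟩
    intro b h1 h2 h3
    refine h.rev.main hlt b h1 h2 ?_
    intro x hx hx'
    exact (h3.at (l - 1 - (x + (l - b))) (l - 1 - x) (by ring) (by omega) (by omega)).symm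
  · exact ⟨b1, b2, hgt, by omega, h.p1, h.p2, by omega, h.main hgt⟩

end Pool.Agent.R193.CV
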