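import Mathlib

/-!
# Periods of factors of bi-infinite words (tools for MP_419f2f_co)

The mathematical proof formalized in this directory is due to helper733.
-/

namespace Pool.Agent.R193.CV

variable {α : Type*}

/-- The factor `f[a, b)` has period `p`. -/
def Per (f : ℤ → α) (a b p : ℤ) : Prop := ∀ x, a ≤ x → x + p < b → f x = f (x + p)

theorem Per.at {f : ℤ → α} {a b p : ℤ} (h : Per f a b p) (x y : ℤ) (hxy : y = x + p)
    (h1 : a ≤ x) (h2 : y < b) : f x = f y := by
  subst hxy
  exact h x h1 h2

theorem Per.mono {f : ℤ → α} {a b p a' b' : ℤ} (h : Per f a b p) (ha : a ≤ a') (hb : b' ≤ b) :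
    Per f a' b' p := fun x h1 h2 => h x (by omega) (by omega)

theorem Per.mulNat {f : ℤ → α} {a b p : ℤ} (h : Per f a b p) (hp : 0 ≤ p) (n : ℕ) :
    ∀ x, a ≤ x → x + p * n < b → f x = f (x + p * n) := by
  induction n with
  | zero => intro x _ _; simp
  | succ n ih =>
    intro x h1 h2
    have e : x + p * ((n + 1 : ℕ) : ℤ) = (x + p * (n : ℤ)) + p := by push_cast; ring
    rw [e] at h2 ⊢
    have hn : 0 ≤ p * (n : ℤ) := by positivity
    rw [← h (x + p * n) (by omega) h2]
    exact ih x h1 (by omega)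

/-- Positions congruent modulo the period carry the same letter. -/
theorem Per.congr {f : ℤ → α} {a b p : ℤ} (h : Per f a b p) (hp : 0 < p) {x y : ℤ}
    (hx : a ≤ x) (hx' : x < b) (hy : a ≤ y) (hy' : y < b) (hd : p ∣ y - x) : f x = f y := by
  obtain ⟨m, hm⟩ := hd
  rcases le_total 0 m with h0 | h0
  · obtain ⟨n, rfl⟩ := Int.eq_ofNat_of_zero_le h0
    have e : y = x + p * n := by
      have : y - x = p * (n : ℤ) := by simpa using hm
      omega
    subst e
    exact h.mulNat hp.le n x hx hy'
  · obtain ⟨n, hn⟩ := Int.eq_ofNat_of_zero_le (a := -m) (by omega)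
    have e : x = y + p * n := by
      have : (n : ℤ) = - m := hn.symm
      rw [this]
      have : p * -m = - (p * m) := by ring
      rw [this, ← hm]
      ring
    subst e
    exact (h.mulNat hp.le n y hy hx').symm

theorem Per.dvd {f : ℤ → α} {a b p d : ℤ} (h : Per f a b d) (hd : 0 < d) (hp : 0 < p)
    (hdp : d ∣ p) : Per f a b p := by
  intro x h1 h2
  exact h.congr hd h1 (by omega) (by omega) h2 (by simpa using hdp)

theorem Per.lift {f : ℤ → α} {a b p a' b' d : ℤ} (h : Per f a b p) (hp : 0 < p) (hd : 0 < d)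
    (hdp : d ∣ p) (h' : Per f a' b' d) (ha : a ≤ a') (hb : b' ≤ b) (hl : p ≤ b' - a') :
    Per f a b d := by
  intro x h1 h2
  have hm1 := Int.emod_nonneg (x - a') hp.ne'
  have hm2 := Int.emod_lt_of_pos (x - a') hp
  have hk1 := Int.emod_nonneg (x + d - a') hp.ne'
  have hk2 := Int.emod_lt_of_pos (x + d - a') hp
  have e1 : f x = f (a' + (x - a') % p) := by
    refine h.congr hp h1 (by omega) (by omega) (by omega) ?_
    have := Int.emod_add_mul_ediv (x - a') p
    exact ⟨-((x - a') / p), by linear_combination this⟩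
  have e2 : f (x + d) = f (a' + (x + d - a') % p) := by
    refine h.congr hp (by omega) h2 (by omega) (by omega) ?_
    have := Int.emod_add_mul_ediv (x + d - a') p
    exact ⟨-((x + d - a') / p), by linear_combination this⟩
  rw [e1, e2]
  refine h'.congr hd (by omega) (by omega) (by omega) (by omega) ?_
  have t1 := Int.emod_add_mul_ediv (x - a') p
  have t2 := Int.emod_add_mul_ediv (x + d - a') p
  obtain ⟨c, hc⟩ := hdp
  refine ⟨1 - c * ((x + d - a') / p) + c * ((x - a') / p), ?_⟩
  have e3 : p * ((x + d - a') / p) = d * (c * ((x + d - a') / p)) := by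
    conv_lhs => rw [hc]
    ring_nf
    rw [← hc]
  have e4 : p * ((x - a') / p) = d * (c * ((x - a') / p)) := by
    conv_lhs => rw [hc]
    ring_nf
    rw [← hc]
  linear_combination t2 - t1 - e3 + e4

theorem Per.union {f : ℤ → α} {a b a' b' d : ℤ} (h : Per f a b d) (h' : Per f a' b' d)
    (hl : a' + d ≤ b) : Per f a b' d := by
  intro x h1 h2
  by_cases hx : x + d < b
  · exact h x h1 hx
  · exact h' x (by omega) h2

/-- The Fine–Wilf theorem. -/
theorem Per.fw {f : ℤ → α} {a b : ℤ} : ∀ (N : ℕ) (p q : ℤ), 0 < p → 0 < q → p + q ≤ N →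
    p + q ≤ b - a → Per f a b p → Per f a b q → ∃ d, 0 < d ∧ d ∣ p ∧ d ∣ q ∧ Per f a b d := by
  intro N
  induction N with
  | zero => intro p q hp hq h; push_cast at h; omega
  | succ N ih =>
    intro p q hp hq hN hl h1 h2
    have key : ∀ p q : ℤ, 0 < p → p < q → p + q ≤ b - a → Per f a b p → Per f a b q →
        Per f a b (q - p) := by
      intro p q hp hpq hl h1 h2 x hx hx'
      by_cases hc : a ≤ x - p
      · exact (h1.at (x - p) x (by ring) hc (by omega)).symm.trans
          (h2.at (x - p) (x + (q - p)) (by ring) hc (by omega))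
      · exact (h2.at x (x + q) rfl hx (by omega)).trans
          (h1.at (x + (q - p)) (x + q) (by ring) (by omega) (by omega)).symm
    rcases lt_trichotomy p q with hpq | hpq | hpq
    · obtain ⟨d, hd, hd1, hd2, hd3⟩ := ih p (q - p) hp (by omega) (by push_cast at hN; omega)
        (by omega) h1 (key p q hp hpq hl h1 h2)
      refine ⟨d, hd, hd1, ?_, hd3⟩
      have := dvd_add hd2 hd1
      simpa using this
    · subst hpq
      exact ⟨p, hp, dvd_rfl, dvd_rfl, h1⟩
    · obtain ⟨d, hd, hd1, hd2, hd3⟩ := ih (p - q) q (by omega) hq (by push_cast at hN; omega)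
        (by omega) (key q p hq hpq (by omega) h2 h1) h2
      refine ⟨d, hd, ?_, hd2, hd3⟩
      have := dvd_add hd1 hd2
      simpa using this

theorem Per.gcd {f : ℤ → α} {a b p q : ℤ} (h1 : Per f a b p) (h2 : Per f a b q) (hp : 0 < p)
    (hq : 0 < q) (hl : p + q ≤ b - a) : ∃ d, 0 < d ∧ d ∣ p ∧ d ∣ q ∧ Per f a b d :=
  Per.fw (p + q).toNat p q hp hq (by omega) hl h1 h2

/-- The factor `f[0, l)` is not covered by a proper prefix placed at three positions
(the first being `0` and the last being the end). -/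
def SP3 (f : ℤ → α) (l : ℤ) : Prop :=
  ∀ k s, 0 < k → k < l → 0 ≤ s → s ≤ k → s ≤ l - k → l - k ≤ s + k →
    (∀ t, 0 ≤ t → t < k → f (s + t) = f t) →
    (∀ t, 0 ≤ t → t < k → f (l - k + t) = f t) → False

theorem SP3.np {f : ℤ → α} {l d : ℤ} (h : SP3 f l) (hd : 0 < d) (hp : Per f 0 l d) :
    l < 2 * d := by
  by_contra hc
  refine h (l - d) 0 (by omega) (by omega) le_rfl (by omega) (by omega) (by omega) ?_ ?_
  · intro t _ _; simp
  · intro t h1 h2
    exact (hp.at t _ (by ring) h1 (by omega)).symm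

theorem SP3.rev {f : ℤ → α} {l : ℤ} (h : SP3 f l) : SP3 (fun t => f (l - 1 - t)) l := by
  intro k s h1 h2 h3 h4 h5 h6 h7 h8
  have e8 : ∀ t, 0 ≤ t → t < k → f (l - k + t) = f t := by
    intro t ht ht'
    have := h8 (k - 1 - t) (by omega) (by omega)
    simp only at this
    rw [show l - 1 - (l - k + (k - 1 - t)) = t by ring,
      show l - 1 - (k - 1 - t) = l - k + t by ring] at this
    exact this.symm
  refine h k (l - k - s) h1 h2 (by omega) (by omega) (by omega) (by omega) ?_ e8
  intro t ht ht'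
  have := h7 (k - 1 - t) (by omega) (by omega)
  simp only at this
  rw [show l - 1 - (s + (k - 1 - t)) = l - k - s + t by ring,
      show l - 1 - (k - 1 - t) = l - k + t by ring] at this
  rw [this, e8 t ht ht']

end Pool.Agent.R193.CV
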